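import Pool.Agent.J4H4.DM.Stm
import Pool.Agent.J4H42.DN.B

/-!
# Project DM of helper4, job T: one step `1 - b D²`
-/

set_option autoImplicit false

namespace Pool.Agent.J4H72.DM

open Polynomial Complex
open Pool.Agent.J4H4.DM
open Pool.Agent.J4H42.DN

/-- sums over the roots -/
noncomputable def s3 (s : Multiset ℂ) (z : ℂ) : ℂ := (s.map (fun w => 1 / (z - w) ^ 3)).sum

theorem prod_eval3 (s : Multiset ℂ) (z : ℂ) (h : ∀ w ∈ s, z ≠ w) :
    (derivative (derivative (derivative ((s.map (fun w => X - C w)).prod)))).eval z =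
      ((s.map (fun w => X - C w)).prod).eval z * (s1 s z ^ 3 - 3 * s1 s z * s2 s z + 2 * s3 s z) := by
  induction s using Multiset.induction_on with
  | empty => simp [s1, s2, s3]
  | cons a s ih =>
    have ih' := ih (fun w hw => h w (Multiset.mem_cons_of_mem hw))
    obtain ⟨h0, h1, h2⟩ := prod_eval s z (fun w hw => h w (Multiset.mem_cons_of_mem hw))
    have ha : z - a ≠ 0 := sub_ne_zero.2 (h a (Multiset.mem_cons_self a s))
    have e1 : s1 (a ::ₘ s) z = 1 / (z - a) + s1 s z := by simp [s1]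
    have e2 : s2 (a ::ₘ s) z = 1 / (z - a) ^ 2 + s2 s z := by simp [s2]
    have e3 : s3 (a ::ₘ s) z = 1 / (z - a) ^ 3 + s3 s z := by simp [s3]
    rw [e1, e2, e3]
    simp only [Multiset.map_cons, Multiset.prod_cons]
    set P : ℂ[X] := (s.map (fun w => X - C w)).prod with hP
    simp only [derivative_mul, derivative_sub, derivative_X, derivative_C, sub_zero, one_mul,
      derivative_add, eval_add, eval_mul, eval_sub, eval_X, eval_C]
    rw [ih', h2]
    field_simp
    ring

theorem poly_eval3 {q : ℂ[X]} {z : ℂ} (h : ∀ w ∈ q.roots, z ≠ w) :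
    (derivative (derivative (derivative q))).eval z =
      q.eval z * (s1 q.roots z ^ 3 - 3 * s1 q.roots z * s2 q.roots z + 2 * s3 q.roots z) := by
  have hprod : C q.leadingCoeff * (q.roots.map (fun w => X - C w)).prod = q :=
    C_leadingCoeff_mul_prod_multiset_X_sub_C IsAlgClosed.card_roots_eq_natDegree
  have h3 := prod_eval3 q.roots z h
  set P : ℂ[X] := (q.roots.map (fun w => X - C w)).prod with hP
  have e0 : q.eval z = q.leadingCoeff * P.eval z := by
    conv_lhs => rw [← hprod]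
    simp
  have e2 : (derivative (derivative (derivative q))).eval z =
      q.leadingCoeff * (derivative (derivative (derivative P))).eval z := by
    conv_lhs => rw [← hprod]
    simp
  rw [e0, e2, h3]
  ring

theorem norm_s3 (s : Multiset ℂ) (z : ℂ) {R : ℝ} (hR : 0 < R) (h : ∀ w ∈ s, w.im + R ≤ z.im) :
    ‖s3 s z‖ ≤ (-(s1 s z).im) / R ^ 2 := by
  rw [im_s1, s3, le_div_iff₀ (by positivity)]
  have h1 := norm_multiset_sum_le (s.map (fun w => 1 / (z - w) ^ 3))
  rw [Multiset.map_map] at h1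
  have h2 : (s.map ((fun x => ‖x‖) ∘ fun w => 1 / (z - w) ^ 3)).sum * R ^ 2 ≤
      (s.map (fun w => (z.im - w.im) / ‖z - w‖ ^ 2)).sum := by
    rw [← Multiset.sum_map_mul_right]
    apply Multiset.sum_map_le_sum_map
    intro w hw
    have hw' := h w hw
    have hn : R ≤ ‖z - w‖ := by
      have h3 := Complex.abs_im_le_norm (z - w)
      rw [sub_im] at h3
      exact le_trans (by linarith) ((le_abs_self _).trans h3)
    have hpos : 0 < ‖z - w‖ := lt_of_lt_of_le hR hn
    have e : ((fun x => ‖x‖) ∘ fun w => 1 / (z - w) ^ 3) w * R ^ 2 = R ^ 2 / ‖z - w‖ / ‖z - w‖ ^ 2 := by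
      simp only [Function.comp, norm_div, norm_one, norm_pow]
      field_simp
    rw [e]
    apply div_le_div_of_nonneg_right _ (sq_nonneg _)
    rw [div_le_iff₀ hpos]
    nlinarith
  have h3 := mul_le_mul_of_nonneg_right h1 (sq_nonneg R)
  exact h3.trans h2

theorem t_T : S_T := by
  intro Q z₀ b R M hQ hR hM hb hbM hroots hL
  have hR0 : 0 < R := by linarith
  have hM0 : 0 < M := by linarith
  have hne : ∀ w ∈ Q.roots, z₀ ≠ w := by
    intro w hw h
    have := hroots w hw
    rw [h] at this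
    linarith
  obtain ⟨h0, h1, h2⟩ := poly_eval hQ hne
  have h3 := poly_eval3 hne
  set L := s1 Q.roots z₀ with hLd
  set A2 := s2 Q.roots z₀ with hA2
  set A3 := s3 Q.roots z₀ with hA3
  have hLe : (derivative Q).eval z₀ / Q.eval z₀ = L := by
    rw [h1]; field_simp
  rw [hLe] at hL
  have him : -(L).im ≤ 2 * M := by
    have := Complex.abs_im_le_norm L
    have h4 := neg_le_abs L.im
    linarith
  have hs2 : ‖A2‖ ≤ 2 * M / R := (norm_s2 Q.roots z₀ hR0 hroots).trans
    (div_le_div_of_nonneg_right him hR0.le)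
  have hs3 : ‖A3‖ ≤ 2 * M / R ^ 2 := (norm_s3 Q.roots z₀ hR0 hroots).trans
    (div_le_div_of_nonneg_right him (by positivity))
  have hs2' : ‖A2‖ ≤ 2 * M := hs2.trans (div_le_self (by positivity) hR)
  have hs3' : ‖A3‖ ≤ 2 * M / R := by
    refine hs3.trans ?_
    apply div_le_div_of_nonneg_left (by positivity) hR0
    nlinarith
  have hV : ‖(b : ℂ) * (L ^ 2 - A2)‖ ≤ 1 / 2 := by
    rw [norm_mul, Complex.norm_real, Real.norm_eq_abs, abs_of_nonneg hb]
    have h4 : ‖L ^ 2 - A2‖ ≤ 6 * M ^ 2 := by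
      calc ‖L ^ 2 - A2‖ ≤ ‖L ^ 2‖ + ‖A2‖ := norm_sub_le _ _
        _ ≤ (2 * M) ^ 2 + 2 * M := by
          rw [norm_pow]
          gcongr
        _ ≤ 6 * M ^ 2 := by nlinarith
    calc b * ‖L ^ 2 - A2‖ ≤ b * (6 * M ^ 2) := by gcongr
      _ ≤ 1 / 2 := by linarith
  set v : ℂ := 1 - (b : ℂ) * (L ^ 2 - A2) with hv
  have hvn : 1 / 2 ≤ ‖v‖ := by
    have h4 := norm_sub_norm_le (1 : ℂ) ((b : ℂ) * (L ^ 2 - A2))
    rw [norm_one] at h4
    linarith
  have hv0 : v ≠ 0 := by
    intro h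
    rw [h, norm_zero] at hvn
    linarith
  have hst : (stp b Q).eval z₀ = Q.eval z₀ * v := by
    unfold stp
    rw [eval_sub, eval_mul, eval_C, h2, hv]
    ring
  have hdst : (derivative (stp b Q)).eval z₀ =
      Q.eval z₀ * (L - (b : ℂ) * (L ^ 3 - 3 * L * A2 + 2 * A3)) := by
    unfold stp
    rw [derivative_sub, derivative_mul, derivative_C, zero_mul, zero_add, eval_sub, eval_mul, eval_C, h3, h1]
    ring
  refine ⟨h0, by rw [hst]; exact mul_ne_zero h0 hv0, ?_, ?_⟩
  · rw [hLe, hst, hdst]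
    have e : Q.eval z₀ * (L - (b : ℂ) * (L ^ 3 - 3 * L * A2 + 2 * A3)) / (Q.eval z₀ * v) - L =
        (b : ℂ) * (2 * L * A2 - 2 * A3) / v := by
      rw [mul_div_mul_left _ _ h0, div_sub' hv0]
      congr 1
      rw [hv]
      ring
    rw [e, norm_div, norm_mul, Complex.norm_real, Real.norm_eq_abs, abs_of_nonneg hb]
    have h5 : ‖2 * L * A2 - 2 * A3‖ ≤ 12 * M ^ 2 / R := by
      calc ‖2 * L * A2 - 2 * A3‖ ≤ ‖2 * L * A2‖ + ‖2 * A3‖ := norm_sub_le _ _
        _ = 2 * ‖L‖ * ‖A2‖ + 2 * ‖A3‖ := by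
          rw [norm_mul, norm_mul, norm_mul]
          norm_num
        _ ≤ 2 * (2 * M) * (2 * M / R) + 2 * (2 * M / R) := by gcongr
        _ ≤ 12 * M ^ 2 / R := by
          have : 2 * (2 * M) * (2 * M / R) + 2 * (2 * M / R) = (8 * M ^ 2 + 4 * M) / R := by ring
          rw [this]
          apply div_le_div_of_nonneg_right _ hR0.le
          nlinarith
    rw [div_le_iff₀ (by linarith)]
    have h6 : 0 ≤ 24 * b * M ^ 2 / R := by positivity
    calc b * ‖2 * L * A2 - 2 * A3‖ ≤ b * (12 * M ^ 2 / R) := by gcongr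
      _ = 24 * b * M ^ 2 / R * (1 / 2) := by ring
      _ ≤ 24 * b * M ^ 2 / R * ‖v‖ := by gcongr
  · rw [hst, h1, mul_div_mul_left _ _ h0, norm_div, div_le_iff₀ (by linarith)]
    nlinarith

end Pool.Agent.J4H72.DM
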